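import Pool.Agent.H37.SM.Base

/-! Linear functionals on the Laurent ring given by their values on monomials. -/

set_option autoImplicit false

namespace Pool.Agent.H37.SM

open Finset

variable {r : ℕ}

/-- the linear functional with value `φ p` on the monomial `x^p` -/
noncomputable def Lf (φ : Pt → ℂ) : LL →ₗ[ℂ] ℂ where
  toFun η := η.coeff.sum fun p z => z * φ p
  map_add' η ξ := by
    have : (η + ξ).coeff = η.coeff + ξ.coeff := rfl
    rw [this]
    exact Finsupp.sum_add_index' (fun p => zero_mul _) (fun p z z' => add_mul _ _ _)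
  map_smul' z η := by
    have : (z • η).coeff = z • η.coeff := rfl
    rw [this, RingHom.id_apply]
    rw [Finsupp.sum_smul_index' (fun p => zero_mul _)]
    rw [smul_eq_mul, Finsupp.sum, Finsupp.sum, Finset.mul_sum]
    refine Finset.sum_congr rfl fun p _ => ?_
    rw [smul_eq_mul, mul_assoc]

lemma Lf_single (φ : Pt → ℂ) (p : Pt) (z : ℂ) :
    Lf φ (AddMonoidAlgebra.single p z) = z * φ p := by
  show (AddMonoidAlgebra.single p z : LL).coeff.sum (fun p z => z * φ p) = _
  rw [AddMonoidAlgebra.coeff_single]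
  exact Finsupp.sum_single_index (zero_mul _)

lemma Lf_mono (φ : Pt → ℂ) (p : Pt) : Lf φ (mono p) = φ p := by
  unfold mono; rw [Lf_single, one_mul]

lemma eq_sum_single (η : LL) :
    η = ∑ q ∈ η.coeff.support, AddMonoidAlgebra.single q (cf η q) := by
  classical
  apply ext_cf; intro q
  rw [cf_sum]
  simp only [cf_single]
  rw [Finset.sum_ite_eq]
  by_cases hq : q ∈ η.coeff.support
  · rw [if_pos hq]
  · rw [if_neg hq]; exact Finsupp.notMem_support_iff.mp hq

lemma D_single (F : Dat r) (B : Finset (Fin r)) (s : ℂ) (c : Fin 4 → ℂ) (p : Pt) (z : ℂ) :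
    D F B s c (AddMonoidAlgebra.single p z) =
      AddMonoidAlgebra.single p ((lin c p - s * c 3) * z) +
        ∑ i ∈ B, AddMonoidAlgebra.single (p + F.hat i) (F.κ i * lin c (F.hat i) * z) := by
  apply ext_cf; intro q
  rw [cf_D, cf_add, cf_sum, cf_single, cf_single]
  congr 1
  · by_cases h : q = p
    · rw [if_pos h, if_pos h, h]
    · rw [if_neg h, if_neg h, mul_zero]
  · refine Finset.sum_congr rfl fun i _ => ?_
    rw [cf_single, cf_single]
    by_cases h : q = p + F.hat i
    · rw [if_pos h, if_pos (by rw [h]; abel)]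
    · rw [if_neg h, if_neg (fun h' => h (by rw [← h']; abel)), mul_zero]

/-- the functional applied to `D η` vanishes if this holds for all monomials of `η` -/
lemma Lf_D_eq_zero (φ : Pt → ℂ) (F : Dat r) (B : Finset (Fin r)) (s : ℂ) (c : Fin 4 → ℂ)
    (η : LL) (h : ∀ p, cf η p ≠ 0 →
      (lin c p - s * c 3) * φ p + ∑ i ∈ B, F.κ i * lin c (F.hat i) * φ (p + F.hat i) = 0) :
    Lf φ (D F B s c η) = 0 := by
  conv_lhs => rw [eq_sum_single η]
  rw [map_sum, map_sum]
  refine Finset.sum_eq_zero fun p hp => ?_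
  have hp' : cf η p ≠ 0 := Finsupp.mem_support_iff.mp hp
  rw [D_single, map_add, map_sum, Lf_single]
  simp only [Lf_single]
  have := h p hp'
  calc (lin c p - s * c 3) * cf η p * φ p +
        ∑ i ∈ B, F.κ i * lin c (F.hat i) * cf η p * φ (p + F.hat i)
      = cf η p * ((lin c p - s * c 3) * φ p +
          ∑ i ∈ B, F.κ i * lin c (F.hat i) * φ (p + F.hat i)) := by
        rw [mul_add, Finset.mul_sum]
        congr 1
        · ring
        · refine Finset.sum_congr rfl fun i _ => ?_
          ring
    _ = 0 := by rw [this, mul_zero]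

end Pool.Agent.H37.SM
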