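import Pool.Agent.H16.SM.Fun

/-! The residue functional for a non-compact column facet: power series part. -/

set_option autoImplicit false

namespace Pool.Agent.H37.SM.NB

open Finset

/-- `A^{-m} B^{m-k} x^n` as a power series -/
noncomputable def GG (uA uB uX : (PowerSeries ℂ)ˣ) (m k n : ℤ) : PowerSeries ℂ :=
  ((uA ^ (-m) * uB ^ (m - k) * uX ^ n : (PowerSeries ℂ)ˣ) : PowerSeries ℂ)

lemma GG_apex {ι : Type*} (S : Finset ι) (κ : ι → ℂ) (a : ι → ℤ) (uA uB uX : (PowerSeries ℂ)ˣ)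
    (h : ∑ i ∈ S, κ i • ((uX ^ (a i) : (PowerSeries ℂ)ˣ) : PowerSeries ℂ) =
      PowerSeries.X * (uA : PowerSeries ℂ)) (m k n : ℤ) :
    ∑ i ∈ S, κ i • GG uA uB uX (m + 1) (k + 1) (n + a i) = PowerSeries.X * GG uA uB uX m k n := by
  have h1 : ∀ i ∈ S, κ i • GG uA uB uX (m + 1) (k + 1) (n + a i) =
      ((uA ^ (-(m + 1)) * uB ^ (m - k) * uX ^ n : (PowerSeries ℂ)ˣ) : PowerSeries ℂ) *
        (κ i • ((uX ^ (a i) : (PowerSeries ℂ)ˣ) : PowerSeries ℂ)) := by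
    intro i _
    unfold GG
    rw [mul_smul_comm, ← Units.val_mul, mul_assoc _ (uX ^ n), ← zpow_add]
    congr 4
    ring_nf
  rw [Finset.sum_congr rfl h1, ← Finset.mul_sum, h]
  unfold GG
  rw [mul_left_comm, ← Units.val_mul]
  congr 2
  have : uA ^ (-m) = uA ^ (-(m + 1)) * uA := by
    rw [← zpow_add_one]; congr 1; ring
  rw [this]
  simp only [mul_comm, mul_left_comm]

lemma GG_base {ι : Type*} (S : Finset ι) (κ : ι → ℂ) (a : ι → ℤ) (uA uB uX : (PowerSeries ℂ)ˣ)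
    (h : ∑ i ∈ S, κ i • ((uX ^ (a i) : (PowerSeries ℂ)ˣ) : PowerSeries ℂ) =
      (uB : PowerSeries ℂ)) (m k n : ℤ) :
    ∑ i ∈ S, κ i • GG uA uB uX m (k + 1) (n + a i) = GG uA uB uX m k n := by
  have h1 : ∀ i ∈ S, κ i • GG uA uB uX m (k + 1) (n + a i) =
      ((uA ^ (-m) * uB ^ (m - (k + 1)) * uX ^ n : (PowerSeries ℂ)ˣ) : PowerSeries ℂ) *
        (κ i • ((uX ^ (a i) : (PowerSeries ℂ)ˣ) : PowerSeries ℂ)) := by
    intro i _
    unfold GG
    rw [mul_smul_comm, ← Units.val_mul, mul_assoc _ (uX ^ n), ← zpow_add]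
  rw [Finset.sum_congr rfl h1, ← Finset.mul_sum, h]
  unfold GG
  rw [← Units.val_mul]
  congr 1
  have : uB ^ (m - k) = uB ^ (m - (k + 1)) * uB := by
    rw [← zpow_add_one]; congr 1; ring
  rw [this, mul_assoc, mul_assoc, mul_comm (uX ^ n) uB, ← mul_assoc, ← mul_assoc, ← mul_assoc]

/-- `(-1)^m (m-1)!` -/
noncomputable def dd (m : ℤ) : ℂ := (-1) ^ m.toNat * ((m - 1).toNat.factorial : ℂ)

lemma dd_succ {m : ℤ} (hm : 1 ≤ m) : dd (m + 1) = -(m : ℂ) * dd m := by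
  obtain ⟨n, rfl⟩ : ∃ n : ℕ, m = n + 1 := ⟨(m - 1).toNat, by omega⟩
  unfold dd
  have h1 : ((n : ℤ) + 1 + 1).toNat = n + 2 := by omega
  have h2 : ((n : ℤ) + 1 + 1 - 1).toNat = n + 1 := by omega
  have h3 : ((n : ℤ) + 1).toNat = n + 1 := by omega
  have h4 : ((n : ℤ) + 1 - 1).toNat = n := by omega
  rw [h1, h2, h3, h4, Nat.factorial_succ]
  push_cast
  ring

/-- the sequence with `c_{n+1} = -(n - s) c_n` -/
noncomputable def cc (s : ℂ) (n : ℤ) : ℂ := (-1) ^ n * Complex.Gamma (n - s)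

lemma cc_succ {s : ℂ} (hs : ∀ n : ℤ, s ≠ n) (n : ℤ) : cc s (n + 1) = -((n : ℂ) - s) * cc s n := by
  unfold cc
  have h : (n : ℂ) - s ≠ 0 := fun h => hs n (by rw [sub_eq_zero] at h; exact h.symm)
  have : (((n + 1 : ℤ) : ℂ) - s) = ((n : ℂ) - s) + 1 := by push_cast; ring
  rw [this, Complex.Gamma_add_one _ h, zpow_add_one₀ (by norm_num)]
  ring

lemma cc_ne {s : ℂ} (hs : ∀ n : ℤ, s ≠ n) (n : ℤ) : cc s n ≠ 0 := by
  unfold cc
  refine mul_ne_zero (zpow_ne_zero _ (by norm_num)) (Complex.Gamma_ne_zero fun m h => ?_)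
  apply hs (n + m)
  push_cast
  linear_combination -h

/-- the value of the functional on the monomial with `j`-coordinate `m`, degree `k` and
`i0`-coordinate `n` -/
noncomputable def ph (s : ℂ) (uA uB uX : (PowerSeries ℂ)ˣ) (m k n : ℤ) : ℂ :=
  if 1 ≤ m then dd m * cc s (k - m) * PowerSeries.coeff (m - 1).toNat (GG uA uB uX m k n) else 0

lemma ph_apex {ι : Type*} (S : Finset ι) (κ : ι → ℂ) (a : ι → ℤ) (s : ℂ)
    (uA uB uX : (PowerSeries ℂ)ˣ)
    (h : ∑ i ∈ S, κ i • ((uX ^ (a i) : (PowerSeries ℂ)ˣ) : PowerSeries ℂ) =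
      PowerSeries.X * (uA : PowerSeries ℂ)) {m : ℤ} (hm : 0 ≤ m) (k n : ℤ) :
    ∑ i ∈ S, κ i * ph s uA uB uX (m + 1) (k + 1) (n + a i) = -(m : ℂ) * ph s uA uB uX m k n := by
  have h1 : ∀ i ∈ S, κ i * ph s uA uB uX (m + 1) (k + 1) (n + a i) =
      dd (m + 1) * cc s (k - m) * PowerSeries.coeff m.toNat
        (κ i • GG uA uB uX (m + 1) (k + 1) (n + a i)) := by
    intro i _
    unfold ph
    rw [if_pos (by omega), map_smul, smul_eq_mul]
    have e1 : k + 1 - (m + 1) = k - m := by ring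
    have e2 : m + 1 - 1 = m := by ring
    rw [e1, e2]; ring
  rw [Finset.sum_congr rfl h1, ← Finset.mul_sum, ← map_sum, GG_apex S κ a uA uB uX h]
  rcases hm.eq_or_lt with h0 | h0
  · rw [← h0]
    unfold ph
    simp
  · obtain ⟨t, rfl⟩ : ∃ t : ℕ, m = t + 1 := ⟨(m - 1).toNat, by omega⟩
    have e1 : ((t : ℤ) + 1).toNat = t + 1 := by omega
    unfold ph
    rw [if_pos (by omega), e1, PowerSeries.coeff_succ_X_mul, dd_succ (by omega)]
    have e2 : ((t : ℤ) + 1 - 1).toNat = t := by omega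
    rw [e2]
    ring

lemma ph_base {ι : Type*} (S : Finset ι) (κ : ι → ℂ) (a : ι → ℤ) {s : ℂ} (hs : ∀ n : ℤ, s ≠ n)
    (uA uB uX : (PowerSeries ℂ)ˣ)
    (h : ∑ i ∈ S, κ i • ((uX ^ (a i) : (PowerSeries ℂ)ˣ) : PowerSeries ℂ) =
      (uB : PowerSeries ℂ)) (m k n : ℤ) :
    ∑ i ∈ S, κ i * ph s uA uB uX m (k + 1) (n + a i) =
      -((k : ℂ) - m - s) * ph s uA uB uX m k n := by
  by_cases hm : 1 ≤ m
  · have h1 : ∀ i ∈ S, κ i * ph s uA uB uX m (k + 1) (n + a i) =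
        dd m * cc s (k + 1 - m) * PowerSeries.coeff (m - 1).toNat
          (κ i • GG uA uB uX m (k + 1) (n + a i)) := by
      intro i _
      unfold ph
      rw [if_pos hm, map_smul, smul_eq_mul]
      ring
    rw [Finset.sum_congr rfl h1, ← Finset.mul_sum, ← map_sum, GG_base S κ a uA uB uX h]
    unfold ph
    have e1 : k + 1 - m = (k - m) + 1 := by ring
    rw [if_pos hm, e1, cc_succ hs]
    push_cast
    ring
  · have : ∀ k n, ph s uA uB uX m k n = 0 := fun k n => if_neg hm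
    simp [this]

lemma ph_one {s : ℂ} (hs : ∀ n : ℤ, s ≠ n) (uA uB uX : (PowerSeries ℂ)ˣ) (k n : ℤ) :
    ph s uA uB uX 1 k n ≠ 0 := by
  unfold ph
  rw [if_pos le_rfl]
  refine mul_ne_zero (mul_ne_zero ?_ (cc_ne hs _)) ?_
  · simp [dd]
  · have : ((1 : ℤ) - 1).toNat = 0 := rfl
    rw [this, PowerSeries.coeff_zero_eq_constantCoeff_apply]
    unfold GG
    exact ((uA ^ (-(1 : ℤ)) * uB ^ (1 - k) * uX ^ n : (PowerSeries ℂ)ˣ).isUnit.map
      (PowerSeries.constantCoeff (R := ℂ))).ne_zero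

section perm
variable {i0 j k : Fin 3}

lemma forall_perm (h1 : i0 ≠ j) (h2 : i0 ≠ k) (h3 : j ≠ k) (l : Fin 3) :
    l = i0 ∨ l = j ∨ l = k := by
  revert i0 j k l; decide

lemma univ_perm (h1 : i0 ≠ j) (h2 : i0 ≠ k) (h3 : j ≠ k) : (univ : Finset (Fin 3)) = {i0, j, k} := by
  revert i0 j k; decide

lemma sum_perm {M : Type*} [AddCommMonoid M] (h1 : i0 ≠ j) (h2 : i0 ≠ k) (h3 : j ≠ k)
    (f : Fin 3 → M) : ∑ l, f l = f i0 + f j + f k := by
  rw [univ_perm h1 h2 h3, Finset.sum_insert (by simp [h1, h2]), Finset.sum_insert (by simp [h3]),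
    Finset.sum_singleton, add_assoc]

lemma prod_perm {M : Type*} [CommMonoid M] (h1 : i0 ≠ j) (h2 : i0 ≠ k) (h3 : j ≠ k)
    (f : Fin 3 → M) : ∏ l, f l = f i0 * f j * f k := by
  rw [univ_perm h1 h2 h3, Finset.prod_insert (by simp [h1, h2]), Finset.prod_insert (by simp [h3]),
    Finset.prod_singleton, mul_assoc]

lemma ell_perm (h1 : i0 ≠ j) (h2 : i0 ≠ k) (h3 : j ≠ k) (w : Fin 3 → ℤ) (N : ℤ) (p : Pt) :
    ell w N p = w i0 * p i0.castSucc + w j * p j.castSucc + w k * p k.castSucc - N * p 3 := by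
  have := sum_perm h1 h2 h3 (fun l => w l * p l.castSucc)
  rw [← this, Fin.sum_univ_three]; rfl

lemma wt_perm (h1 : i0 ≠ j) (h2 : i0 ≠ k) (h3 : j ≠ k) (w : Fin 3 → ℤ) :
    wt w = w i0 + w j + w k := by
  have := sum_perm h1 h2 h3 (fun l => w l)
  rw [← this, Fin.sum_univ_three]; rfl

end perm

lemma exists_root {ι : Type*} (S : Finset ι) (κ : ι → ℂ) (a : ι → ℕ)
    (hinj : ∀ i ∈ S, ∀ i' ∈ S, a i = a i' → i = i') (hκ : ∀ i ∈ S, κ i ≠ 0) {i1 i2 : ι}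
    (h1 : i1 ∈ S) (h2 : i2 ∈ S) (h12 : i1 ≠ i2) :
    ∃ ρ : ℂ, ρ ≠ 0 ∧ ∑ i ∈ S, κ i * ρ ^ a i = 0 := by
  classical
  by_contra hno
  push Not at hno
  set P : Polynomial ℂ := ∑ i ∈ S, Polynomial.monomial (a i) (κ i) with hP
  have hcoeff : ∀ i ∈ S, P.coeff (a i) = κ i := by
    intro i hi
    rw [hP, Polynomial.finsetSum_coeff, Finset.sum_eq_single i]
    · rw [Polynomial.coeff_monomial, if_pos rfl]
    · intro i' hi' hne
      rw [Polynomial.coeff_monomial, if_neg]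
      intro h; exact hne (hinj _ hi' _ hi h)
    · intro h; exact absurd hi h
  have heval : ∀ x, P.eval x = ∑ i ∈ S, κ i * x ^ a i := by
    intro x
    rw [hP, Polynomial.eval_finsetSum]
    exact Finset.sum_congr rfl fun i _ => Polynomial.eval_monomial
  have hP0 : P ≠ 0 := by
    intro h
    have := hcoeff _ h1
    rw [h, Polynomial.coeff_zero] at this
    exact hκ _ h1 this.symm
  have hroots : ∀ x ∈ P.roots, x = 0 := by
    intro x hx
    by_contra hx0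
    have := (Polynomial.mem_roots hP0).mp hx
    exact hno x hx0 (by rw [← heval]; exact this)
  have hrep := Multiset.eq_replicate_card.mpr hroots
  have hprod := (IsAlgClosed.splits P).eq_prod_roots
  rw [hrep, Multiset.map_replicate, Multiset.prod_replicate, map_zero, sub_zero] at hprod
  have hc : ∀ n, P.coeff n ≠ 0 → n = Multiset.card P.roots := by
    intro n hn
    rw [hprod, Polynomial.coeff_C_mul_X_pow] at hn
    by_contra h
    rw [if_neg] at hn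
    · exact hn rfl
    · simpa using h
  have e1 := hc (a i1) (by rw [hcoeff _ h1]; exact hκ _ h1)
  have e2 := hc (a i2) (by rw [hcoeff _ h2]; exact hκ _ h2)
  exact h12 (hinj _ h1 _ h2 (e1.trans e2.symm))

/-- `x = ρ + τ` as a unit -/
lemma exists_uX {ρ : ℂ} (hρ : ρ ≠ 0) : ∃ uX : (PowerSeries ℂ)ˣ,
    (uX : PowerSeries ℂ) = PowerSeries.X + PowerSeries.C ρ := by
  have : IsUnit (PowerSeries.X + PowerSeries.C ρ : PowerSeries ℂ) := by
    rw [PowerSeries.isUnit_iff_constantCoeff]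
    simp [hρ]
  exact ⟨this.unit, this.unit_spec⟩

lemma coeff0_sum {ι : Type*} (S : Finset ι) (κ : ι → ℂ) (a : ι → ℕ) {ρ : ℂ}
    {uX : (PowerSeries ℂ)ˣ} (h : (uX : PowerSeries ℂ) = PowerSeries.X + PowerSeries.C ρ) :
    PowerSeries.constantCoeff (R := ℂ)
      (∑ i ∈ S, κ i • ((uX ^ (a i : ℤ) : (PowerSeries ℂ)ˣ) : PowerSeries ℂ)) =
      ∑ i ∈ S, κ i * ρ ^ a i := by
  rw [map_sum]
  refine Finset.sum_congr rfl fun i _ => ?_
  rw [zpow_natCast, Units.val_pow_eq_pow_val, h, PowerSeries.smul_eq_C_mul, map_mul, map_pow]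
  simp

lemma coeff1_sum {ι : Type*} (S : Finset ι) (κ : ι → ℂ) (a : ι → ℕ) {ρ : ℂ}
    {uX : (PowerSeries ℂ)ˣ} (h : (uX : PowerSeries ℂ) = PowerSeries.X + PowerSeries.C ρ) :
    ρ * PowerSeries.coeff 1
      (∑ i ∈ S, κ i • ((uX ^ (a i : ℤ) : (PowerSeries ℂ)ˣ) : PowerSeries ℂ)) =
      ∑ i ∈ S, κ i * a i * ρ ^ a i := by
  rw [map_sum, Finset.mul_sum]
  refine Finset.sum_congr rfl fun i _ => ?_
  rw [zpow_natCast, Units.val_pow_eq_pow_val, h, map_smul, smul_eq_mul,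
    PowerSeries.coeff_one_pow]
  rcases Nat.eq_zero_or_pos (a i) with h0 | h0
  · rw [h0]; simp
  · obtain ⟨n, hn⟩ := Nat.exists_eq_succ_of_ne_zero h0.ne'
    rw [hn]
    simp [PowerSeries.coeff_X]
    ring

end Pool.Agent.H37.SM.NB
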